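import Mathlib
import Pool.Agent.Y674.TR.Stm2

/-! Project TR2, part MULP: all multiples. -/

set_option autoImplicit false

namespace Pool.Agent.Y170.TR

open Polynomial NumberField Pool.Agent.Y674.TR

theorem mulp (h1 : DBL) (h2 : ADD) : MULP := by
  intro K _ _ _ A B hd t s h n
  have c2 : aeval t (2 : ℤ[X]) = (2 : K) := map_ofNat (aeval t) 2
  have c4 : aeval t (4 : ℤ[X]) = (4 : K) := map_ofNat (aeval t) 4
  have c8 : aeval t (8 : ℤ[X]) = (8 : K) := map_ofNat (aeval t) 8
  induction n using Nat.strong_induction_on with
  | _ n ih =>
    intro hn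
    rcases Nat.lt_or_ge 1 n with h3 | h3
    · obtain ⟨k, hk2 | hk2⟩ := Nat.even_or_odd' n
      · subst hk2
        have hk : 1 ≤ k := by omega
        have i1 := h1 K A B hd _ _ _ (ih k (by omega) hk)
        rw [ND_even A B k hk]
        have e : (2 * k) • (WeierstrassCurve.Affine.Point.some t s h : (E K A B).Point) =
            2 • (k • (WeierstrassCurve.Affine.Point.some t s h : (E K A B).Point)) := by
          rw [← mul_nsmul', mul_comm]
        rw [e]
        have e1 : aeval t (dblP A B (ND A B k)).1 =
            aeval t (ND A B k).1 ^ 4 - 2 * (A : K) * aeval t (ND A B k).1 ^ 2 *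
              aeval t (ND A B k).2 ^ 2 - 8 * (B : K) * aeval t (ND A B k).1 *
              aeval t (ND A B k).2 ^ 3 + (A : K) ^ 2 * aeval t (ND A B k).2 ^ 4 := by
          simp [dblP, c2, c4, c8]
        have e2 : aeval t (dblP A B (ND A B k)).2 =
            4 * aeval t (ND A B k).2 * (aeval t (ND A B k).1 ^ 3 + (A : K) *
              aeval t (ND A B k).1 * aeval t (ND A B k).2 ^ 2 + (B : K) *
              aeval t (ND A B k).2 ^ 3) := by
          simp [dblP, c2, c4, c8]
        rw [e1, e2]
        exact i1
      · subst hk2
        have hk : 1 ≤ k := by omega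
        have i1 := ih k (by omega) hk
        have i2 := ih (k + 1) (by omega) (by omega)
        have i3 := h2 K A B hd t s h _ _ (succ_nsmul _ k) _ _ _ _ i1 i2
        rw [ND_odd A B k hk]
        have e : (2 * k + 1) • (WeierstrassCurve.Affine.Point.some t s h : (E K A B).Point) =
            k • (WeierstrassCurve.Affine.Point.some t s h : (E K A B).Point) +
            (k + 1) • (WeierstrassCurve.Affine.Point.some t s h : (E K A B).Point) := by
          rw [← add_nsmul]
          congr 1
          omega
        rw [e]
        have e1 : aeval t (addP A B (ND A B k) (ND A B (k + 1))).1 =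
            2 * ((aeval t (ND A B k).1 * aeval t (ND A B (k + 1)).2 +
              aeval t (ND A B (k + 1)).1 * aeval t (ND A B k).2) *
              (aeval t (ND A B k).1 * aeval t (ND A B (k + 1)).1 +
                (A : K) * (aeval t (ND A B k).2 * aeval t (ND A B (k + 1)).2)) +
              2 * (B : K) * (aeval t (ND A B k).2 ^ 2 * aeval t (ND A B (k + 1)).2 ^ 2)) -
            t * (aeval t (ND A B k).1 * aeval t (ND A B (k + 1)).2 -
              aeval t (ND A B (k + 1)).1 * aeval t (ND A B k).2) ^ 2 := by
          simp [addP, c2]
        have e2 : aeval t (addP A B (ND A B k) (ND A B (k + 1))).2 =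
            (aeval t (ND A B k).1 * aeval t (ND A B (k + 1)).2 -
              aeval t (ND A B (k + 1)).1 * aeval t (ND A B k).2) ^ 2 := by
          simp [addP, c2]
        rw [e1, e2]
        exact i3
    · have h4 : n = 1 := by omega
      subst h4
      rw [ND_one]
      right
      refine ⟨by simp, t, s, h, one_nsmul _, by simp⟩

end Pool.Agent.Y170.TR
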